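import Pool.Agent.P.MP_50f9b9_al.Main

open Pool.Agent.P.MP_50f9b9_al in
/-- If a finite index subgroup `H` of a `PD₃`-group `G` is isomorphic to a proper subgroup of
itself, then some finite index subgroup of `G` maps onto the integers. -/
theorem Pool.Agent.Results.MP_50f9b9_al.NestedBetti.result (G : Type) [Group G] (hG : IsPD3 G)
    (H K : Subgroup G) [H.FiniteIndex] (hKH : K < H) (e : H ≃* K) :
    ∃ W : Subgroup G, W.FiniteIndex ∧ ∃ f : W →* Multiplicative ℤ, Function.Surjective f :=
  final G hG H K hKH e
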