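import Pool.Agent.P.MP_50f9b9_al.RP.Final

open Pool.Agent.P.MP_50f9b9_al Pool.Agent.P.MP_50f9b9_al.RP in
/-- Let `G` be a `PD₃`-group, `H` a subgroup of finite index isomorphic to a subgroup `K` of
itself, and `p` a prime dividing the index of `K` in `H`. If `G` is virtually residually `p`, then
`G` is virtually solvable or virtually a product. -/
theorem Pool.Agent.Results.MP_50f9b9_al.NestedResP.result (G : Type) [Group G] (hG : IsPD3 G)
    (H K : Subgroup G) [H.FiniteIndex] (hKH : K ≤ H) (e : H ≃* K) (p : ℕ) (hp : p.Prime)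
    (hpd : p ∣ K.relIndex H) (W : Subgroup G) [W.FiniteIndex] (hW : ResiduallyP p W) :
    VirtSolvable G ∨ VirtProduct G :=
  RP.main G hG H K hKH e p hp hpd W hW
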